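import Mathlib
import Pool.Agent.H59.MOFin

set_option autoImplicit false

namespace Pool.Agent.Results.MP_a187e6_nt.Disproof

open Finset Filter Topology

/-- There is an MO function whose partial sums are `o(x ^ (-1/2))`. -/
theorem result : ∃ f : ℕ → ℂ, f 1 = 1 ∧
    (∀ m n : ℕ, 0 < m → 0 < n → Nat.Coprime m n → f (m * n) = f m * f n) ∧
    Tendsto (fun N : ℕ => ∑ n ∈ Finset.Icc 1 N, f n) atTop (𝓝 0) ∧
    (∀ p : ℕ, p.Prime → ∃ L : ℂ, L ≠ 0 ∧
      Tendsto (fun K : ℕ => ∑ k ∈ Finset.range K, f (p ^ k)) atTop (𝓝 L)) ∧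
    Tendsto (fun x : ℝ => Real.sqrt x * ‖∑ n ∈ Finset.Icc 1 ⌊x⌋₊, f n‖) atTop (𝓝 0) := by
  simp only [Real.sqrt_eq_rpow]
  by_cases hRH : Pool.Agent.H59.Zt.RH
  · obtain ⟨f, h1, h2, h3, a, h4, h5⟩ := Pool.Agent.H59.MO.rh_complex hRH
    obtain ⟨t1, t2⟩ := Pool.Agent.H59.MO.lim_of_bound f 2 a (1 / 2) (by norm_num) h4 h5
    refine ⟨f, h1, fun m n hm hn _ => h2 m n hm hn, t1, fun p hp => ?_, t2⟩
    have z1 := h3 p hp.two_le
    have e : ∀ k : ℕ, f (p ^ k) = f p ^ k := by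
      intro k
      induction k with
      | zero => simpa using h1
      | succ k ih => rw [pow_succ, h2 _ _ (pow_pos hp.pos k) hp.pos, ih, pow_succ]
    refine ⟨(1 - f p)⁻¹, inv_ne_zero (fun h => ?_), ?_⟩
    · rw [← sub_eq_zero.1 h] at z1; simp at z1
    · simp only [e]
      exact (hasSum_geometric_of_norm_lt_one z1).tendsto_sum_nat
  · unfold Pool.Agent.H59.Zt.RH at hRH
    push Not at hRH
    obtain ⟨ρ, h1, h2, h3⟩ := hRH
    obtain ⟨C, hC⟩ := Pool.Agent.H59.Zt.alt_bound ρ ((1 / 2 + ρ.re) / 2) (by linarith)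
      (by linarith) (by rintro rfl; simp at h2) h3
    obtain ⟨t1, t2⟩ := Pool.Agent.H59.MO.lim_of_bound _ C ((1 / 2 + ρ.re) / 2) (1 / 2)
      (by norm_num) (by linarith) (Eventually.of_forall hC)
    exact ⟨Pool.Agent.H59.Zt.alt ρ, by simp [Pool.Agent.H59.Zt.alt],
      fun m n _ _ h => Pool.Agent.H59.Zt.alt_mul ρ m n h, t1,
      Pool.Agent.H59.Zt.alt_loc ρ (by linarith) h2, t2⟩

end Pool.Agent.Results.MP_a187e6_nt.Disproof
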